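import Mathlib
import Pool.Agent.Helper18.SG.Goals

/-!
# Packet G7 of the project SG (MP_d3128a_ag): many points die in every row
-/

set_option autoImplicit false

namespace Pool.Agent.Helper46.SG

open Finset Pool.Agent.Helper18.SG

theorem goalG7 : GoalG7 := by
  intro M S R N ν ℓ y a s z hH hI hy hRy hνa v hv1 hvy
  have hR1 := hH.R1
  have hanti := hH.anti
  have hνM := hH.νM
  -- the row `y + v - M` is low
  have hP0 : ∀ c < a, s c = (y + v - M) → (y + v - M) + ν c ≤ y + v := by
    intro c _ _
    have := hνM c
    omega
  have hPy : ¬ (∀ c < a, s c = y → y + ν c ≤ y + v) := by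
    intro h
    obtain ⟨c, hca, hcs⟩ := hI.bat y (by omega) le_rfl
    have h1 := h c hca hcs
    have h2 := hanti (le_of_lt hca)
    omega
  -- a largest low row
  obtain ⟨t, ht0, hty, hPt, hPt1⟩ : ∃ t, y + v - M ≤ t ∧ t < y ∧
      (∀ c < a, s c = t → t + ν c ≤ y + v) ∧
      ¬ (∀ c < a, s c = t + 1 → t + 1 + ν c ≤ y + v) := by
    by_contra hcon
    push Not at hcon
    apply hPy
    have key : ∀ n, y + v - M ≤ n → n ≤ y → ∀ c < a, s c = n → n + ν c ≤ y + v := by
      intro n hn
      induction n, hn using Nat.le_induction with
      | base => intro _; exact hP0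
      | succ n hn ih =>
        intro hny
        exact hcon n hn (by omega) (ih (by omega))
    exact key y (by omega) le_rfl
  push Not at hPt1
  obtain ⟨c', hc'a, hc's, hc'v⟩ := hPt1
  have heq : ∀ c < a, s c = t → t + ν c = y + v := by
    intro c hca hcs
    have hle : c ≤ c' := by
      by_contra hlt
      push Not at hlt
      have := hI.mono c' c (le_of_lt hlt) hca
      omega
    have h1 := hanti hle
    have h2 := hPt c hca hcs
    omega
  have hcnt := hI.cnt t (by omega) (le_of_lt hty) (by omega) (by
    intro c hca hcs
    have := heq c hca hcs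
    omega)
  have htwo := hI.two t
  have hsub : (range a).filter (fun c => s c = t) ⊆
      (range a).filter (fun c => z c = R ∧ s c + ν c = y + v) ∪
        (range a).filter (fun c => s c = t ∧ z c ≠ R) := by
    intro c hc
    rw [mem_filter, mem_range] at hc
    rw [mem_union, mem_filter, mem_filter, mem_range]
    by_cases hz : z c = R
    · left
      refine ⟨hc.1, hz, ?_⟩
      have := heq c hc.1 hc.2
      rw [hc.2]
      exact this
    · right
      exact ⟨hc.1, hc.2, hz⟩
  have h1 := (card_le_card hsub).trans (card_union_le _ _)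
  omega

end Pool.Agent.Helper46.SG
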